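import Pool.Agent.W805.LR.Stm

set_option autoImplicit false
set_option linter.all false
set_option linter.unusedSectionVars false

namespace Pool.Agent.W646.LR

open Finset Equiv Pool.Agent.W805.LR

noncomputable section

variable {V : Type} [Fintype V] [DecidableEq V]

omit [DecidableEq V] in
theorem cnt_congr {P Q : V → Prop} (h : ∀ v, P v ↔ Q v) : cnt P = cnt Q := by
  have : P = Q := funext fun v => propext (h v)
  rw [this]

omit [DecidableEq V] in
theorem cnt_pos {P : V → Prop} {v : V} (h : P v) : 0 < cnt P := by
  classical
  unfold cnt
  have h1 : (if P v then (1:ℝ) else 0) ≤ ∑ v, if P v then (1 : ℝ) else 0 :=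
    Finset.single_le_sum (f := fun v => if P v then (1:ℝ) else 0)
      (fun i _ => by split_ifs <;> norm_num) (Finset.mem_univ v)
  rw [if_pos h] at h1
  linarith

theorem len_pos (g : Perm V) (v : V) : 0 < len g v := cnt_pos (Perm.SameCycle.refl g v)

theorem len_congr {g : Perm V} {u v : V} (h : g.SameCycle u v) : len g u = len g v :=
  cnt_congr fun _ => ⟨fun h' => h.symm.trans h', fun h' => h.trans h'⟩

omit [DecidableEq V] in
/-- sum of a constant over a set -/
theorem sum_const_cnt (P : V → Prop) [DecidablePred P] (c : ℝ) :
    (∑ v, if P v then c else 0) = cnt P * c := by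
  classical
  unfold cnt
  rw [Finset.sum_mul]
  apply Finset.sum_congr rfl
  intro v _
  by_cases h : P v <;> simp [h]

theorem sum_cycle (g : Perm V) (u : V) [DecidablePred (g.SameCycle u)] :
    (∑ v, if g.SameCycle u v then 1 / len g v else 0) = 1 := by
  have h1 : (∑ v, if g.SameCycle u v then 1 / len g v else 0)
      = ∑ v, if g.SameCycle u v then 1 / len g u else 0 := by
    apply Finset.sum_congr rfl
    intro v _
    by_cases h : g.SameCycle u v
    · rw [if_pos h, if_pos h, len_congr h]
    · rw [if_neg h, if_neg h]
  rw [h1, sum_const_cnt]
  have := len_pos g u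
  unfold len at this ⊢
  field_simp

theorem D_same {g : Perm V} {D : V → Prop} (hD : ∀ v, D (g v) ↔ D v) {x y : V}
    (h : g.SameCycle x y) : D x ↔ D y := by
  have hn : ∀ (n : ℕ) (z : V), D ((g ^ n) z) ↔ D z := by
    intro n
    induction n with
    | zero => intro z; simp
    | succ n ih =>
      intro z
      rw [pow_succ', Perm.mul_apply, hD, ih]
  obtain ⟨i, hi⟩ := h
  obtain ⟨n, rfl | rfl⟩ := i.eq_nat_or_neg
  · rw [zpow_natCast] at hi
    rw [← hi, hn]
  · rw [zpow_neg, zpow_natCast] at hi
    have : x = (g ^ n) y := by
      rw [← hi]; simp
    rw [this, hn]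

theorem main_ncyc (hm : S_merge) (hs : S_split) : S_ncyc := by
  classical
  intro V _ _ g D _ hD u w huw
  obtain hsc | hsc := Classical.em (g.SameCycle u w)
  · -- same cycle
    by_cases hne : u = w
    · subst hne
      refine ⟨fun _ _ h => absurd rfl h, fun _ h => absurd hsc h, fun _ => ?_⟩
      rw [swap_self]
      rfl
    · obtain ⟨s1, s2, s3, s4⟩ := hs V g u w hne hsc
      have hlen : ∀ v, ¬ g.SameCycle u v → len (swap u w * g) v = len g v := by
        intro v hv
        exact cnt_congr (s2 v hv)
      refine ⟨fun hDu _ _ => ?_, fun _ h => absurd hsc h, fun hDu => ?_⟩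
      · set g' := swap u w * g with hg'
        have hCu : ∀ v, g'.SameCycle u v → g.SameCycle u v := by
          intro v hv
          by_contra hcon
          exact hcon ((s2 v hcon u).mp hv.symm).symm
        have hCw : ∀ v, g'.SameCycle w v → g.SameCycle u v := by
          intro v hv
          by_contra hcon
          have := (s2 v hcon w).mp hv.symm
          exact hcon (hsc.trans this.symm)
        have key : ∀ v, (if D v then 1 / len g' v else 0) =
            (if D v then 1 / len g v else 0) + (if g'.SameCycle u v then 1 / len g' v else 0)
              + (if g'.SameCycle w v then 1 / len g' v else 0)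
              - (if g.SameCycle u v then 1 / len g v else 0) := by
          intro v
          by_cases hv : g.SameCycle u v
          · have hDv : D v := (D_same hD hv).mp hDu
            rw [if_pos hDv, if_pos hDv, if_pos hv]
            rcases s4 v hv with h | h
            · have h' : ¬ g'.SameCycle w v := fun h'' => s1 (h.trans h''.symm)
              rw [if_pos h, if_neg h']
              ring
            · have h' : ¬ g'.SameCycle u v := fun h'' => s1 (h''.trans h.symm)
              rw [if_pos h, if_neg h']
              ring
          · have h1 : ¬ g'.SameCycle u v := fun h => hv (hCu v h)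
            have h2 : ¬ g'.SameCycle w v := fun h => hv (hCw v h)
            rw [if_neg h1, if_neg h2, if_neg hv, hlen v hv]
            ring
        rw [Finset.sum_congr rfl (fun v _ => key v), Finset.sum_sub_distrib, Finset.sum_add_distrib,
          Finset.sum_add_distrib, sum_cycle g' u, sum_cycle g' w, sum_cycle g u]
        ring
      · apply Finset.sum_congr rfl
        intro v _
        by_cases hDv : D v
        · rw [if_pos hDv, if_pos hDv, hlen v]
          intro h
          exact hDu ((D_same hD h).mpr hDv)
        · rw [if_neg hDv, if_neg hDv]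
  · obtain ⟨m1, m2, m3⟩ := hm V g u w hsc
    refine ⟨fun _ h => absurd h hsc, fun hDu _ => ?_, fun hDu => ?_⟩
    · set g' := swap u w * g with hg'
      have hDw : D w := huw.mp hDu
      have hpos : 0 < len g u + len g w := add_pos (len_pos g u) (len_pos g w)
      have key : ∀ v, (if D v then 1 / len g' v else 0) =
          (if D v then 1 / len g v else 0)
            + (if g.SameCycle u v ∨ g.SameCycle w v then 1 / (len g u + len g w) else 0)
            - (if g.SameCycle u v then 1 / len g v else 0)
            - (if g.SameCycle w v then 1 / len g v else 0) := by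
        intro v
        by_cases hu : g.SameCycle u v
        · have hw : ¬ g.SameCycle w v := fun h => hsc (hu.trans h.symm)
          have hDv : D v := (D_same hD hu).mp hDu
          rw [if_pos hDv, if_pos hDv, if_pos (Or.inl hu), if_pos hu, if_neg hw, m1 v (Or.inl hu)]
          ring
        · by_cases hw : g.SameCycle w v
          · have hDv : D v := (D_same hD hw).mp hDw
            rw [if_pos hDv, if_pos hDv, if_pos (Or.inr hw), if_neg hu, if_pos hw, m1 v (Or.inr hw)]
            ring
          · rw [if_neg (not_or.mpr ⟨hu, hw⟩), if_neg hu, if_neg hw, m2 v hu hw]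
            ring
      have hcnt : cnt (fun v => g.SameCycle u v ∨ g.SameCycle w v) = len g u + len g w := by
        unfold len cnt
        rw [← Finset.sum_add_distrib]
        apply Finset.sum_congr rfl
        intro v _
        by_cases hu : g.SameCycle u v
        · have hw : ¬ g.SameCycle w v := fun h => hsc (hu.trans h.symm)
          rw [if_pos (Or.inl hu), if_pos hu, if_neg hw, add_zero]
        · by_cases hw : g.SameCycle w v
          · rw [if_pos (Or.inr hw), if_neg hu, if_pos hw, zero_add]
          · rw [if_neg (not_or.mpr ⟨hu, hw⟩), if_neg hu, if_neg hw, add_zero]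
      rw [Finset.sum_congr rfl (fun v _ => key v), Finset.sum_sub_distrib, Finset.sum_sub_distrib,
        Finset.sum_add_distrib, sum_cycle g u, sum_cycle g w, sum_const_cnt, hcnt]
      field_simp
      ring
    · apply Finset.sum_congr rfl
      intro v _
      by_cases hDv : D v
      · rw [if_pos hDv, if_pos hDv, m2 v]
        · intro h
          exact hDu ((D_same hD h).mpr hDv)
        · intro h
          exact hDu (huw.mpr ((D_same hD h).mpr hDv))
      · rw [if_neg hDv, if_neg hDv]

theorem cyc_eq (g : Perm V) : (cyc g : ℝ) = ∑ v, if True then 1 / len g v else 0 := by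
  classical
  unfold cyc
  letI : Fintype (Quotient (Perm.SameCycle.setoid g)) := Fintype.ofFinite _
  rw [Nat.card_eq_fintype_card]
  have h1 := Finset.sum_fiberwise (Finset.univ : Finset V)
    (fun v => (Quotient.mk (Perm.SameCycle.setoid g) v)) (fun v => if True then 1 / len g v else 0)
  rw [← h1]
  have h2 : ∀ q : Quotient (Perm.SameCycle.setoid g),
      (∑ v ∈ Finset.univ.filter (fun v => Quotient.mk (Perm.SameCycle.setoid g) v = q),
        if True then 1 / len g v else 0) = 1 := by
    intro q
    induction q using Quotient.inductionOn with
    | h u =>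
      rw [Finset.sum_filter]
      refine Eq.trans ?_ (sum_cycle g u)
      apply Finset.sum_congr rfl
      intro v _
      have : (Quotient.mk (Perm.SameCycle.setoid g) v = Quotient.mk (Perm.SameCycle.setoid g) u)
          ↔ g.SameCycle u v := by
        rw [Quotient.eq]
        exact ⟨fun h => Perm.SameCycle.symm h, fun h => Perm.SameCycle.symm h⟩
      by_cases h : g.SameCycle u v
      · rw [if_pos (this.mpr h), if_pos trivial, if_pos h]
      · rw [if_neg (fun h' => h (this.mp h')), if_neg h]
  rw [Finset.sum_congr rfl (fun q _ => h2 q), Finset.sum_const, nsmul_eq_mul, mul_one,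
    Finset.card_univ]

theorem main_cyc (hm : S_merge) (hs : S_split) : S_cyc := by
  intro V _ _ g u w
  obtain ⟨h1, h2, -⟩ := main_ncyc hm hs V g (fun _ => True) (fun _ => Iff.rfl) u w Iff.rfl
  constructor
  · intro hsc hne
    have h3 := h1 trivial hsc hne
    rw [← cyc_eq, ← cyc_eq] at h3
    exact_mod_cast h3
  · intro hsc
    have h3 := h2 trivial hsc
    rw [← cyc_eq, ← cyc_eq] at h3
    have h4 : (cyc (swap u w * g) : ℝ) + 1 = cyc g := by linarith
    exact_mod_cast h4

end

end Pool.Agent.W646.LR
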