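import Pool.Agent.W805.LR.Stm

set_option autoImplicit false
set_option linter.all false
set_option linter.unusedSectionVars false

namespace Pool.Agent.W646.LR.SL

open Finset Equiv Pool.Agent.W805.LR

noncomputable section

theorem slots_eq (M T : ℕ) : slots M T = (List.finRange M).product (List.finRange T) := rfl

theorem slots_nodup (M T : ℕ) : (slots M T).Nodup := by
  rw [slots_eq]
  exact (List.nodup_finRange M).product (List.nodup_finRange T)

theorem mem_slots {M T : ℕ} (a : Fin M × Fin T) : a ∈ slots M T := by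
  rw [slots_eq]
  obtain ⟨i, j⟩ := a
  rw [List.pair_mem_product]
  exact ⟨List.mem_finRange i, List.mem_finRange j⟩

theorem split_ex {M T : ℕ} (a : Fin M × Fin T) : ∃ l : List (Fin M × Fin T) × List (Fin M × Fin T),
    slots M T = l.1 ++ a :: l.2 ∧ a ∉ l.1 ∧ a ∉ l.2 := by
  obtain ⟨l1, l2, h⟩ := List.append_of_mem (mem_slots a)
  have hn := slots_nodup M T
  rw [h, List.nodup_middle, List.nodup_cons, List.mem_append, not_or] at hn
  exact ⟨(l1, l2), h, hn.1.1, hn.1.2⟩

theorem prod_split {K G : Type} [Group G] (f : K → G) (l1 l2 : List K) (a : K) :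
    ((l1 ++ a :: l2).map f).prod = (l1.map f).prod * f a * (l2.map f).prod := by
  simp [mul_assoc]

theorem blk_prod {V ι K : Type} (blk : V → ι) (f : K → Perm V) (l : List K)
    (h : ∀ b ∈ l, ∀ v, blk (f b v) = blk v) : ∀ v, blk ((l.map f).prod v) = blk v := by
  induction l with
  | nil => intro v; simp
  | cons a l ih =>
    intro v
    rw [List.map_cons, List.prod_cons, Perm.mul_apply, h a List.mem_cons_self,
      ih (fun b hb => h b (List.mem_cons_of_mem a hb))]

theorem blk_swap {V ι : Type} [DecidableEq V] (blk : V → ι) {x y : V} (h : blk x = blk y) (v : V) :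
    blk (swap x y v) = blk v := by
  rw [swap_apply_def]
  split_ifs with h1 h2
  · rw [h1, h]
  · rw [h2, h]
  · rfl

variable {V : Type} [Fintype V] [DecidableEq V] {M T : ℕ}

/-- one factor -/
def fac (S : Fin M × Fin T → Prop) (ω : Fin M × Fin T → Option (V × V)) (b : Fin M × Fin T) :
    Perm V :=
  open Classical in if S b then tau (ω b) else 1

theorem fac_pos {S : Fin M × Fin T → Prop} {ω : Fin M × Fin T → Option (V × V)}
    {b : Fin M × Fin T} (h : S b) : fac S ω b = tau (ω b) := by
  unfold fac; rw [if_pos h]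

theorem fac_neg {S : Fin M × Fin T → Prop} {ω : Fin M × Fin T → Option (V × V)}
    {b : Fin M × Fin T} (h : ¬ S b) : fac S ω b = 1 := by
  unfold fac; rw [if_neg h]

theorem prodS_eq (l : List (Fin M × Fin T)) (S : Fin M × Fin T → Prop)
    (ω : Fin M × Fin T → Option (V × V)) : prodS l S ω = (l.map (fac S ω)).prod := rfl

theorem fac_update {S : Fin M × Fin T → Prop} {ω : Fin M × Fin T → Option (V × V)}
    {a b : Fin M × Fin T} (o : Option (V × V)) (h : b ≠ a) :
    fac S (Function.update ω a o) b = fac S ω b := by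
  unfold fac
  rw [Function.update_of_ne h]

theorem fac_mask {S S' : Fin M × Fin T → Prop} {ω : Fin M × Fin T → Option (V × V)}
    {b : Fin M × Fin T} (h : S b ↔ S' b) : fac S ω b = fac S' ω b := by
  by_cases hS : S b
  · rw [fac_pos hS, fac_pos (h.mp hS)]
  · rw [fac_neg hS, fac_neg (fun h' => hS (h.mpr h'))]

theorem blk_fac {ι : Type} {θ h : ℝ} {Jt : Fin T → V → V → ℝ} {j : Fin T} {blk : V → ι}
    (hblk : ∀ j' ≤ j, ∀ x y, Jt j' x y ≠ 0 → blk x = blk y)
    {ω : Fin M × Fin T → Option (V × V)} (hω : confW θ h Jt ω ≠ 0) {S : Fin M × Fin T → Prop}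
    (hS : ∀ b, S b → b.2 ≤ j) (b : Fin M × Fin T) (v : V) : blk (fac S ω b v) = blk v := by
  by_cases hb : S b
  · rw [fac_pos hb]
    cases ho : ω b with
    | none => rfl
    | some e =>
      change blk (swap e.1 e.2 v) = blk v
      apply blk_swap
      apply hblk b.2 (hS b hb)
      intro hJ
      apply hω
      unfold confW
      have : ∏ a, wt h Jt a (ω a) = 0 := by
        apply Finset.prod_eq_zero (Finset.mem_univ b)
        rw [ho]
        change h * Jt b.2 e.1 e.2 / 2 = 0
        rw [hJ]; ring
      rw [this, zero_mul]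
  · rw [fac_neg hb]
    rfl

theorem wt_nonneg {h : ℝ} {Jt : Fin T → V → V → ℝ} (hh : 0 ≤ h) (hJ : ∀ j x y, 0 ≤ Jt j x y)
    (a : Fin M × Fin T) (o : Option (V × V)) : 0 ≤ wt h Jt a o := by
  cases o with
  | none => exact zero_le_one
  | some e =>
    change 0 ≤ h * Jt a.2 e.1 e.2 / 2
    have := hJ a.2 e.1 e.2
    positivity

theorem theta_step {θ : ℝ} (hθ : 0 < θ) {n n' : ℕ} (h : n' = n + 1 ∨ n' + 1 = n) :
    θ ^ n' ≤ max θ θ⁻¹ * θ ^ n ∧ θ ^ n ≤ max θ θ⁻¹ * θ ^ n' := by
  have key : ∀ k : ℕ, θ ^ (k + 1) ≤ max θ θ⁻¹ * θ ^ k ∧ θ ^ k ≤ max θ θ⁻¹ * θ ^ (k + 1) := by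
    intro k
    have hk : 0 < θ ^ k := pow_pos hθ k
    constructor
    · rw [pow_succ, mul_comm]
      exact mul_le_mul_of_nonneg_right (le_max_left _ _) hk.le
    · have h1 : 1 ≤ max θ θ⁻¹ * θ := by
        have h2 := mul_le_mul_of_nonneg_right (le_max_right θ θ⁻¹) hθ.le
        rwa [inv_mul_cancel₀ hθ.ne'] at h2
      calc θ ^ k = 1 * θ ^ k := (one_mul _).symm
        _ ≤ (max θ θ⁻¹ * θ) * θ ^ k := mul_le_mul_of_nonneg_right h1 hk.le
        _ = max θ θ⁻¹ * θ ^ (k + 1) := by rw [pow_succ]; ring
  rcases h with rfl | rfl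
  · exact key n
  · exact ⟨(key n').2, (key n').1⟩

theorem main (hc : S_cyc) : S_slot := by
  intro V ι _ _ M T θ h Jt j blk hθ hh hJ hJd hblk
  choose sp hsp using fun a : Fin M × Fin T => split_ex a
  set mask : ℕ → Fin M × Fin T → Prop := fun i a => a.2 < j ∨ (a.2 = j ∧ a.1.val < i) with hmask
  have hmj : ∀ i b, mask i b → b.2 ≤ j := by
    rintro i b (hb | hb)
    · exact hb.le
    · exact hb.1.le
  have hmstep : ∀ (i : Fin M) (b : Fin M × Fin T), b ≠ (i, j) → (mask (i.val + 1) b ↔ mask i.val b) := by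
    intro i b hb
    simp only [hmask]
    constructor
    · rintro (h1 | ⟨h1, h2⟩)
      · exact Or.inl h1
      · refine Or.inr ⟨h1, ?_⟩
        rcases Nat.lt_succ_iff_lt_or_eq.mp h2 with h3 | h3
        · exact h3
        · exfalso
          apply hb
          exact Prod.ext (Fin.ext h3) h1
    · rintro (h1 | ⟨h1, h2⟩)
      · exact Or.inl h1
      · exact Or.inr ⟨h1, by omega⟩
  have hmself : ∀ (i : Fin M), mask (i.val + 1) (i, j) := by
    intro i
    exact Or.inr ⟨rfl, by simp⟩
  have hmself' : ∀ (i : Fin M) (k : ℕ), k ≤ i.val → ¬ mask k (i, j) := by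
    rintro i k hk (h1 | ⟨-, h2⟩)
    · exact lt_irrefl _ h1
    · simp only at h2; omega
  set c : Fin M → (Fin M × Fin T → Option (V × V)) → Perm V := fun i ω =>
    ((sp (i, j)).1.map (fac (mask i.val) ω)).prod with hcdef
  refine ⟨c, ?_⟩
  have hWupd : ∀ (a : Fin M × Fin T) (ω : Fin M × Fin T → Option (V × V)) (o : Option (V × V)),
      confW θ h Jt (Function.update ω a o) =
        (wt h Jt a o * ∏ b ∈ Finset.univ.erase a, wt h Jt b (ω b)) *
        θ ^ cyc (((sp a).1.map (fac (fun _ => True) ω)).prod * tau o *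
          ((sp a).2.map (fac (fun _ => True) ω)).prod) := by
    intro a ω o
    obtain ⟨h1, h2, h3⟩ := hsp a
    unfold confW
    congr 1
    · rw [← Finset.mul_prod_erase Finset.univ _ (Finset.mem_univ a), Function.update_self]
      congr 1
      apply Finset.prod_congr rfl
      intro b hb
      rw [Function.update_of_ne (Finset.ne_of_mem_erase hb)]
    · congr 2
      rw [prodS_eq, h1, prod_split]
      congr 1
      · congr 1
        · congr 1
          apply List.map_congr_left
          intro b hb
          exact fac_update o (fun he => h2 (he ▸ hb))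
        · rw [fac_pos trivial, Function.update_self]
      · congr 1
        apply List.map_congr_left
        intro b hb
        exact fac_update o (fun he => h3 (he ▸ hb))
  have hcycstep : ∀ (X Y : Perm V) (x y : V), x ≠ y →
      (cyc (X * swap x y * Y) = cyc (X * 1 * Y) + 1 ∨ cyc (X * swap x y * Y) + 1 = cyc (X * 1 * Y)) := by
    intro X Y x y hxy
    have h1 : X * swap x y * Y = swap (X x) (X y) * (X * 1 * Y) := by
      rw [mul_swap_eq_swap_mul, mul_one, mul_assoc]
    rw [h1]
    obtain ⟨c1, c2⟩ := hc V (X * 1 * Y) (X x) (X y)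
    by_cases hs : (X * 1 * Y).SameCycle (X x) (X y)
    · exact Or.inl (c1 hs (fun he => hxy (X.injective he)))
    · exact Or.inr (c2 hs)
  refine
    { W_nonneg := ?_
      w_nonneg := ?_
      w_diag := ?_
      step := ?_
      g_indep := ?_
      c_indep := ?_
      up := ?_
      low := ?_
      g_blk := ?_
      c_blk := ?_ }
  · intro ω
    unfold confW
    exact mul_nonneg (Finset.prod_nonneg (fun a _ => wt_nonneg hh hJ a _)) (pow_nonneg hθ.le _)
  · intro x y
    have := hJ j x y
    positivity
  · intro x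
    rw [hJd]; ring
  · intro i ω
    obtain ⟨h1, h2, h3⟩ := hsp (i, j)
    have e1 : prodS (slots M T) (mask (i.val + 1)) ω =
        c i ω * tau (ω (i, j)) * ((sp (i, j)).2.map (fac (mask i.val) ω)).prod := by
      rw [prodS_eq, h1, prod_split, fac_pos (hmself i)]
      congr 1
      · congr 1
        congr 1
        apply List.map_congr_left
        intro b hb
        exact fac_mask (hmstep i b (fun he => h2 (he ▸ hb)))
      · congr 1
        apply List.map_congr_left
        intro b hb
        exact fac_mask (hmstep i b (fun he => h3 (he ▸ hb)))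
    have e2 : prodS (slots M T) (mask i.val) ω =
        c i ω * 1 * ((sp (i, j)).2.map (fac (mask i.val) ω)).prod := by
      rw [prodS_eq, h1, prod_split, fac_neg (hmself' i i.val le_rfl)]
    change prodS (slots M T) (mask (i.val + 1)) ω =
      c i ω * tau (ω (i, j)) * (c i ω)⁻¹ * prodS (slots M T) (mask i.val) ω
    rw [e1, e2]
    group
  · intro i k hk ω o
    change prodS (slots M T) (mask k) (Function.update ω (i, j) o) = prodS (slots M T) (mask k) ω
    rw [prodS_eq, prodS_eq]
    congr 1
    apply List.map_congr_left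
    intro b _
    by_cases hb : b = (i, j)
    · rw [hb, fac_neg (hmself' i k hk), fac_neg (hmself' i k hk)]
    · exact fac_update o hb
  · intro i ω o
    simp only [hcdef]
    congr 1
    apply List.map_congr_left
    intro b hb
    exact fac_update o (fun he => (hsp (i, j)).2.1 (he ▸ hb))
  · intro i ω x y
    rw [hWupd, hWupd]
    have hR : 0 ≤ ∏ b ∈ Finset.univ.erase (i, j), wt h Jt b (ω b) :=
      Finset.prod_nonneg (fun a _ => wt_nonneg hh hJ a _)
    have w1 : wt h Jt ((i, j) : Fin M × Fin T) (some (x, y)) = h * Jt j x y / 2 := rfl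
    have w0 : wt h Jt ((i, j) : Fin M × Fin T) none = 1 := rfl
    have t1 : (tau (some (x, y)) : Perm V) = swap x y := rfl
    have t0 : (tau none : Perm V) = 1 := rfl
    rw [w1, w0, t1, t0]
    by_cases hxy : x = y
    · subst hxy
      rw [hJd]
      simp
    · have h1 := (theta_step hθ (hcycstep ((sp (i, j)).1.map (fac (fun _ => True) ω)).prod
        ((sp (i, j)).2.map (fac (fun _ => True) ω)).prod x y hxy)).1
      have h2 : 0 ≤ h * Jt j x y / 2 * ∏ b ∈ Finset.univ.erase (i, j), wt h Jt b (ω b) := by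
        have := hJ j x y
        positivity
      refine le_trans (mul_le_mul_of_nonneg_left h1 h2) (le_of_eq ?_)
      ring
  · intro i ω x y
    rw [hWupd, hWupd]
    have hR : 0 ≤ ∏ b ∈ Finset.univ.erase (i, j), wt h Jt b (ω b) :=
      Finset.prod_nonneg (fun a _ => wt_nonneg hh hJ a _)
    have w1 : wt h Jt ((i, j) : Fin M × Fin T) (some (x, y)) = h * Jt j x y / 2 := rfl
    have w0 : wt h Jt ((i, j) : Fin M × Fin T) none = 1 := rfl
    have t1 : (tau (some (x, y)) : Perm V) = swap x y := rfl
    have t0 : (tau none : Perm V) = 1 := rfl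
    rw [w1, w0, t1, t0]
    by_cases hxy : x = y
    · subst hxy
      rw [hJd]
      simp
    · have h1 := (theta_step hθ (hcycstep ((sp (i, j)).1.map (fac (fun _ => True) ω)).prod
        ((sp (i, j)).2.map (fac (fun _ => True) ω)).prod x y hxy)).2
      have h2 : 0 ≤ h * Jt j x y / 2 * ∏ b ∈ Finset.univ.erase (i, j), wt h Jt b (ω b) := by
        have := hJ j x y
        positivity
      refine le_trans (le_of_eq ?_) (le_trans (mul_le_mul_of_nonneg_left h1 h2) (le_of_eq ?_))
      · ring
      · ring
  · intro ω hω i _ v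
    change blk (prodS (slots M T) (mask i) ω v) = blk v
    rw [prodS_eq]
    exact blk_prod blk _ _ (fun b _ v => blk_fac hblk hω (hmj i) b v) v
  · intro ω hω i v
    exact blk_prod blk _ _ (fun b _ v => blk_fac hblk hω (hmj i.val) b v) v

end

end Pool.Agent.W646.LR.SL
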